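import Pool.Agent.helper56.CT.SpecA

namespace CT
open Finset

section
variable {D : Type} [Fintype D] [DecidableEq D]

/-- orientations of the strands of `e` -/
def JZ6_F (A : Finset D) (e : D → D) : Finset (D → Bool) :=
  univ.filter fun o => (∀ d ∈ A, o (e d) = !o d) ∧ ∀ d, d ∉ A → o d = false

theorem JZ6_mem {A : Finset D} {e : D → D} {o : D → Bool} :
    o ∈ JZ6_F A e ↔ (∀ d ∈ A, o (e d) = !o d) ∧ ∀ d, d ∉ A → o d = false := by
  unfold JZ6_F
  rw [mem_filter]
  exact ⟨fun h => h.2, fun h => ⟨mem_univ _, h⟩⟩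

def JZ6_res (x y : D) (o : D → Bool) : D → Bool := fun d => if d = x ∨ d = y then false else o d

def JZ6_ext (e : D → D) (x y : D) (b : Bool) (o : D → Bool) : D → Bool := fun d =>
  if d = x then (if e x = y then b else !o (e x)) else if d = y then (if e x = y then !b else !o (e y)) else o d

theorem JZ6_res_mem {A : Finset D} {e : D → D} (h : Act A e) {x y : D} (hx : x ∈ A) (hy : y ∈ A) (hxy : x ≠ y)
    {o : D → Bool} (ho : o ∈ JZ6_F A e) (hoxy : o x ≠ o y) :
    JZ6_res x y o ∈ JZ6_F ((A.erase x).erase y) (join e x y) := by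
  obtain ⟨he, hA⟩ := h
  have hx' := (hA x).2 hx
  have hy' := (hA y).2 hy
  rw [JZ6_mem] at ho ⊢
  obtain ⟨h1, h2⟩ := ho
  constructor
  · intro d hd
    rw [mem_erase, mem_erase] at hd
    obtain ⟨hdy, hdx, hdA⟩ := hd
    have hod : JZ6_res x y o d = o d := by simp [JZ6_res, hdx, hdy]
    rw [hod]
    have hd1 := h1 d hdA
    have hj : join e x y d = if e d = x then e y else if e d = y then e x else e d := by
      simp [join, hdx, hdy]
    rw [hj]
    by_cases c1 : e d = x
    · rw [if_pos c1]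
      have c2 : e y ≠ x := by
        intro hc
        apply hdy
        rw [← he d, c1, ← he y, hc]
      have : JZ6_res x y o (e y) = o (e y) := by simp [JZ6_res, c2, hy']
      rw [this, h1 y hy]
      rw [c1] at hd1
      rw [← hd1]
      cases hX : o x <;> cases hY : o y <;> simp_all
    · rw [if_neg c1]
      by_cases c2 : e d = y
      · rw [if_pos c2]
        have c3 : e x ≠ y := by
          intro hc
          apply hdx
          rw [← he d, c2, ← he x, hc]
        have : JZ6_res x y o (e x) = o (e x) := by simp [JZ6_res, c3, hx']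
        rw [this, h1 x hx]
        rw [c2] at hd1
        rw [← hd1]
        cases hX : o x <;> cases hY : o y <;> simp_all
      · rw [if_neg c2]
        have : JZ6_res x y o (e d) = o (e d) := by simp [JZ6_res, c1, c2]
        rw [this, hd1]
  · intro d hd
    unfold JZ6_res
    by_cases c : d = x ∨ d = y
    · rw [if_pos c]
    · rw [if_neg c]
      push Not at c
      apply h2
      intro hdA
      exact hd (by rw [mem_erase, mem_erase]; exact ⟨c.2, c.1, hdA⟩)

theorem JZ6_ext_mem {A : Finset D} {e : D → D} (h : Act A e) {x y : D} (hx : x ∈ A) (hy : y ∈ A) (hxy : x ≠ y)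
    (b : Bool) {o : D → Bool} (ho : o ∈ JZ6_F ((A.erase x).erase y) (join e x y)) :
    JZ6_ext e x y b o ∈ JZ6_F A e ∧ JZ6_ext e x y b o x ≠ JZ6_ext e x y b o y ∧ JZ6_res x y (JZ6_ext e x y b o) = o := by
  obtain ⟨he, hA⟩ := h
  have hx' := (hA x).2 hx
  have hy' := (hA y).2 hy
  rw [JZ6_mem] at ho
  obtain ⟨h1, h2⟩ := ho
  have ex : JZ6_ext e x y b o x = if e x = y then b else !o (e x) := by simp [JZ6_ext]
  have ey : JZ6_ext e x y b o y = if e x = y then !b else !o (e y) := by simp [JZ6_ext, hxy.symm]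
  have ed : ∀ d, d ≠ x → d ≠ y → JZ6_ext e x y b o d = o d := by
    intro d hdx hdy
    simp [JZ6_ext, hdx, hdy]
  refine ⟨?_, ?_, ?_⟩
  · rw [JZ6_mem]
    constructor
    · intro d hd
      by_cases dx : d = x
      · subst dx
        rw [ex]
        by_cases c : e d = y
        · rw [if_pos c, c, ey, if_pos c]
        · rw [if_neg c, ed _ hx' c, Bool.not_not]
      · by_cases dy : d = y
        · subst dy
          rw [ey]
          by_cases c : e x = d
          · have : e d = x := by rw [← c, he]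
            rw [if_pos c, this, ex, if_pos c, Bool.not_not]
          · have c2 : e d ≠ x := by
              intro hc
              apply c
              rw [← hc, he]
            rw [if_neg c, ed _ c2 hy', Bool.not_not]
        · rw [ed d dx dy]
          by_cases c1 : e d = x
          · have c2 : d = e x := by rw [← c1, he]
            have c3 : e x ≠ y := by rw [← c2]; exact dy
            rw [c1, ex, if_neg c3, c2]
          · by_cases c2 : e d = y
            · have c3 : d = e y := by rw [← c2, he]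
              have c4 : e x ≠ y := by
                intro hc
                apply dx
                rw [c3, ← hc, he]
              rw [c2, ey, if_neg c4, ← c3]
            · rw [ed _ c1 c2]
              have hd' : d ∈ (A.erase x).erase y := by
                rw [mem_erase, mem_erase]
                exact ⟨dy, dx, hd⟩
              have := h1 d hd'
              rw [show join e x y d = e d by simp [join, dx, dy, c1, c2]] at this
              exact this
    · intro d hd
      have dx : d ≠ x := fun hc => hd (hc ▸ hx)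
      have dy : d ≠ y := fun hc => hd (hc ▸ hy)
      rw [ed d dx dy]
      apply h2
      rw [mem_erase, mem_erase]
      exact fun hc => hd hc.2.2
  · rw [ex, ey]
    by_cases c : e x = y
    · rw [if_pos c, if_pos c]
      cases b <;> simp
    · rw [if_neg c, if_neg c]
      have hm : e x ∈ (A.erase x).erase y := by
        rw [mem_erase, mem_erase]
        exact ⟨c, hx', (hA _).1 (by rw [he]; exact hx'.symm)⟩
      have h3 := h1 _ hm
      rw [show join e x y (e x) = e y by simp [join, hx', c, he]] at h3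
      rw [h3]
      cases o (e x) <;> simp
  · funext d
    unfold JZ6_res
    by_cases c : d = x ∨ d = y
    · rw [if_pos c]
      symm
      apply h2
      rw [mem_erase, mem_erase]
      rintro ⟨k1, k2, -⟩
      exact c.elim k2 k1
    · rw [if_neg c]
      push Not at c
      exact ed d c.1 c.2

theorem JZ6_ext_res {A : Finset D} {e : D → D} (h : Act A e) {x y : D} (hx : x ∈ A) (hy : y ∈ A)
    {o : D → Bool} (ho : o ∈ JZ6_F A e) (hoxy : o x ≠ o y) (b : Bool) (hb : e x = y → b = o x) :
    JZ6_ext e x y b (JZ6_res x y o) = o := by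
  obtain ⟨he, hA⟩ := h
  have hx' := (hA x).2 hx
  have hy' := (hA y).2 hy
  rw [JZ6_mem] at ho
  obtain ⟨h1, h2⟩ := ho
  funext d
  unfold JZ6_ext
  by_cases dx : d = x
  · subst dx
    rw [if_pos rfl]
    by_cases c : e d = y
    · rw [if_pos c, hb c]
    · rw [if_neg c]
      have : JZ6_res d y o (e d) = o (e d) := by simp [JZ6_res, hx', c]
      rw [this, h1 d hx, Bool.not_not]
  · rw [if_neg dx]
    by_cases dy : d = y
    · subst dy
      rw [if_pos rfl]
      by_cases c : e x = d
      · rw [if_pos c, hb c]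
        cases hX : o x <;> cases hY : o d <;> simp_all
      · have c2 : e d ≠ x := by
          intro hc
          apply c
          rw [← hc, he]
        rw [if_neg c]
        have : JZ6_res x d o (e d) = o (e d) := by simp [JZ6_res, hy', c2]
        rw [this, h1 d hy, Bool.not_not]
    · rw [if_neg dy]
      simp [JZ6_res, dx, dy]

/-- the number of orientations and the number of loops -/
theorem JZ6_join {A : Finset D} {e : D → D} (h : Act A e) {x y : D} (hx : x ∈ A) (hy : y ∈ A) (hxy : x ≠ y)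
    (P : (D → Bool) → Prop) [DecidablePred P] (hP : ∀ o, P (JZ6_res x y o) ↔ P o) :
    ((JZ6_F A e).filter fun o => o x ≠ o y ∧ P o).card =
      2 ^ lp e x y * ((JZ6_F ((A.erase x).erase y) (join e x y)).filter P).card := by
  by_cases c : e x = y
  · have hlp : lp e x y = 1 := by simp [lp, c]
    rw [hlp, pow_one]
    have hcard : 2 * ((JZ6_F ((A.erase x).erase y) (join e x y)).filter P).card =
        ((univ : Finset Bool) ×ˢ ((JZ6_F ((A.erase x).erase y) (join e x y)).filter P)).card := by
      rw [card_product]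
      simp
    rw [hcard]
    refine Finset.card_nbij' (fun o => (o x, JZ6_res x y o)) (fun q => JZ6_ext e x y q.1 q.2) ?_ ?_ ?_ ?_
    · intro o ho
      have ho' := mem_filter.mp (mem_coe.mp ho)
      refine mem_coe.mpr (mem_product.mpr ⟨mem_univ _, mem_filter.mpr ⟨?_, ?_⟩⟩)
      · exact JZ6_res_mem h hx hy hxy ho'.1 ho'.2.1
      · exact (hP o).mpr ho'.2.2
    · intro q hq
      have hq' := mem_filter.mp (mem_product.mp (mem_coe.mp hq)).2
      obtain ⟨k1, k2, k3⟩ := JZ6_ext_mem h hx hy hxy q.1 hq'.1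
      refine mem_coe.mpr (mem_filter.mpr ⟨k1, k2, ?_⟩)
      rw [← hP, k3]
      exact hq'.2
    · intro o ho
      have ho' := mem_filter.mp (mem_coe.mp ho)
      exact JZ6_ext_res h hx hy ho'.1 ho'.2.1 _ fun _ => rfl
    · intro q hq
      have hq' := mem_filter.mp (mem_product.mp (mem_coe.mp hq)).2
      obtain ⟨k1, k2, k3⟩ := JZ6_ext_mem h hx hy hxy q.1 hq'.1
      refine Prod.ext ?_ k3
      show JZ6_ext e x y q.1 q.2 x = q.1
      simp [JZ6_ext, c]
  · have hlp : lp e x y = 0 := by simp [lp, c]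
    rw [hlp, pow_zero, one_mul]
    refine Finset.card_nbij' (fun o => JZ6_res x y o) (fun q => JZ6_ext e x y false q) ?_ ?_ ?_ ?_
    · intro o ho
      have ho' := mem_filter.mp (mem_coe.mp ho)
      exact mem_coe.mpr (mem_filter.mpr ⟨JZ6_res_mem h hx hy hxy ho'.1 ho'.2.1, (hP o).mpr ho'.2.2⟩)
    · intro q hq
      have hq' := mem_filter.mp (mem_coe.mp hq)
      obtain ⟨k1, k2, k3⟩ := JZ6_ext_mem h hx hy hxy false hq'.1
      refine mem_coe.mpr (mem_filter.mpr ⟨k1, k2, ?_⟩)
      rw [← hP, k3]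
      exact hq'.2
    · intro o ho
      have ho' := mem_filter.mp (mem_coe.mp ho)
      exact JZ6_ext_res h hx hy ho'.1 ho'.2.1 _ fun hc => absurd hc c
    · intro q hq
      have hq' := mem_filter.mp (mem_coe.mp hq)
      exact (JZ6_ext_mem h hx hy hxy false hq'.1).2.2

/-- total number of orientations -/
theorem JZ6_total (m : ℕ) : ∀ (A : Finset D) (e : D → D), Act A e → A.card = 2 * m → (JZ6_F A e).card = 2 ^ m := by
  induction m with
  | zero =>
    intro A e _ hA
    have hA0 : A = ∅ := card_eq_zero.mp hA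
    subst hA0
    have : JZ6_F (∅ : Finset D) e = {fun _ => false} := by
      ext o
      rw [JZ6_mem, mem_singleton]
      constructor
      · intro ho
        funext d
        exact ho.2 d (notMem_empty d)
      · rintro rfl
        exact ⟨fun d hd => absurd hd (notMem_empty d), fun _ _ => rfl⟩
    rw [this, card_singleton, pow_zero]
  | succ m ih =>
    intro A e h hA
    obtain ⟨x, hx⟩ : A.Nonempty := by
      rw [← card_pos]
      omega
    have hex := (h.2 x).2 hx
    have hy : e x ∈ A := (h.2 _).1 (by rw [h.1]; exact hex.symm)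
    have h1 := JZ6_join h hx hy hex.symm (fun _ => True) (fun _ => Iff.rfl)
    have hlp : lp e x (e x) = 1 := by simp [lp]
    rw [hlp, pow_one] at h1
    have h2 : ((JZ6_F A e).filter fun o => o x ≠ o (e x) ∧ True) = JZ6_F A e := by
      apply filter_true_of_mem
      intro o ho
      rw [JZ6_mem] at ho
      refine ⟨?_, trivial⟩
      rw [ho.1 x hx]
      cases o x <;> simp
    have h3 : ((JZ6_F ((A.erase x).erase (e x)) (join e x (e x))).filter fun _ => True) =
        JZ6_F ((A.erase x).erase (e x)) (join e x (e x)) := filter_true_of_mem fun _ _ => trivial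
    rw [h2, h3, ih _ _ (join_act h hx hy hex.symm) ?_] at h1
    · rw [h1, pow_succ, mul_comm]
    · rw [card_erase_of_mem (mem_erase.mpr ⟨hex, hy⟩), card_erase_of_mem hx]
      omega

end

section
variable {V : Type} [Fintype V] [DecidableEq V]

/-- two true darts at `u` -/
def JZ6_Bal (u : V) (o : V × Fin 4 → Bool) : Prop := (univ.filter fun i : Fin 4 => o (u, i) = true).card = 2

instance (u : V) : DecidablePred (JZ6_Bal u) := fun o => by unfold JZ6_Bal; infer_instance

theorem JZ6_fin (f : Fin 4 → Bool) : 2 * (if (univ.filter fun i : Fin 4 => f i = true).card = 2 then 1 else 0) =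
    ∑ t : Fin 3, if f (pr t).1 ≠ f (pr t).2.1 ∧ f (pr t).2.2.1 ≠ f (pr t).2.2.2 then 1 else 0 := by
  revert f
  decide

theorem JZ6_pr (t : Fin 3) : (pr t).1 ≠ (pr t).2.1 ∧ (pr t).2.2.1 ≠ (pr t).2.2.2 ∧ (pr t).1 ≠ (pr t).2.2.1 ∧
    (pr t).1 ≠ (pr t).2.2.2 ∧ (pr t).2.1 ≠ (pr t).2.2.1 ∧ (pr t).2.1 ≠ (pr t).2.2.2 ∧
    ∀ i : Fin 4, i = (pr t).1 ∨ i = (pr t).2.1 ∨ i = (pr t).2.2.1 ∨ i = (pr t).2.2.2 := by
  revert t
  decide

/-- smoothing step -/
theorem JZ6_sm {A : Finset (V × Fin 4)} {e : V × Fin 4 → V × Fin 4} (h : Act A e) (u : V)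
    (hu : ∀ i, (u, i) ∈ A) (P : (V × Fin 4 → Bool) → Prop) [DecidablePred P]
    (hP : ∀ o o' : V × Fin 4 → Bool, (∀ d, d.1 ≠ u → o d = o' d) → (P o ↔ P o')) (t : Fin 3) :
    Act (A.filter fun d => d.1 ≠ u) (sm e u t) ∧
    ((JZ6_F A e).filter fun o => (o (u, (pr t).1) ≠ o (u, (pr t).2.1) ∧
      o (u, (pr t).2.2.1) ≠ o (u, (pr t).2.2.2)) ∧ P o).card =
      2 ^ ls e u t * ((JZ6_F (A.filter fun d => d.1 ≠ u) (sm e u t)).filter P).card := by
  obtain ⟨p1, p2, p3, p4, p5, p6, p7⟩ := JZ6_pr t
  have ne : ∀ i j : Fin 4, i ≠ j → ((u, i) : V × Fin 4) ≠ (u, j) := fun i j hij hc => hij (Prod.mk.inj hc).2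
  have hres : ∀ (i j : Fin 4) (o : V × Fin 4 → Bool) d, d.1 ≠ u → JZ6_res (u, i) (u, j) o d = o d := by
    intro i j o d hd
    unfold JZ6_res
    rw [if_neg]
    rintro (rfl | rfl) <;> exact hd rfl
  have a1 := join_act h (hu (pr t).1) (hu (pr t).2.1) (ne _ _ p1)
  have m3 : (u, (pr t).2.2.1) ∈ (A.erase (u, (pr t).1)).erase (u, (pr t).2.1) := by
    rw [mem_erase, mem_erase]
    exact ⟨ne _ _ p5.symm, ne _ _ p3.symm, hu _⟩
  have m4 : (u, (pr t).2.2.2) ∈ (A.erase (u, (pr t).1)).erase (u, (pr t).2.1) := by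
    rw [mem_erase, mem_erase]
    exact ⟨ne _ _ p6.symm, ne _ _ p4.symm, hu _⟩
  have a2 := join_act a1 m3 m4 (ne _ _ p2)
  have hAA : (((A.erase (u, (pr t).1)).erase (u, (pr t).2.1)).erase (u, (pr t).2.2.1)).erase (u, (pr t).2.2.2) =
      A.filter fun d => d.1 ≠ u := by
    ext d
    simp only [mem_erase, mem_filter]
    constructor
    · rintro ⟨k4, k3, k2, k1, k⟩
      refine ⟨k, fun hc => ?_⟩
      have hd : d = (u, d.2) := Prod.ext hc rfl
      rcases p7 d.2 with q | q | q | q
      · exact k1 (by rw [hd, q])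
      · exact k2 (by rw [hd, q])
      · exact k3 (by rw [hd, q])
      · exact k4 (by rw [hd, q])
    · rintro ⟨k, hc⟩
      refine ⟨?_, ?_, ?_, ?_, k⟩ <;> (rintro rfl; exact hc rfl)
  rw [hAA] at a2
  refine ⟨a2, ?_⟩
  have h1 := JZ6_join h (hu (pr t).1) (hu (pr t).2.1) (ne _ _ p1)
    (fun o => o (u, (pr t).2.2.1) ≠ o (u, (pr t).2.2.2) ∧ P o) (by
      intro o
      have q1 : JZ6_res (u, (pr t).1) (u, (pr t).2.1) o (u, (pr t).2.2.1) = o (u, (pr t).2.2.1) := by
        unfold JZ6_res
        rw [if_neg]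
        rintro (hc | hc)
        · exact ne _ _ p3.symm hc
        · exact ne _ _ p5.symm hc
      have q2 : JZ6_res (u, (pr t).1) (u, (pr t).2.1) o (u, (pr t).2.2.2) = o (u, (pr t).2.2.2) := by
        unfold JZ6_res
        rw [if_neg]
        rintro (hc | hc)
        · exact ne _ _ p4.symm hc
        · exact ne _ _ p6.symm hc
      rw [q1, q2, hP _ _ (hres (pr t).1 (pr t).2.1 o)])
  have h2 := JZ6_join a1 m3 m4 (ne _ _ p2) P (fun o => hP _ _ (hres _ _ o))
  rw [hAA] at h2
  have h3 : ((JZ6_F A e).filter fun o => (o (u, (pr t).1) ≠ o (u, (pr t).2.1) ∧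
      o (u, (pr t).2.2.1) ≠ o (u, (pr t).2.2.2)) ∧ P o) = ((JZ6_F A e).filter fun o => o (u, (pr t).1) ≠ o (u, (pr t).2.1) ∧
      (o (u, (pr t).2.2.1) ≠ o (u, (pr t).2.2.2) ∧ P o)) := by
    apply filter_congr
    intro o _
    rw [and_assoc]
  rw [h3, h1, h2, ← mul_assoc, ← pow_add]
  rfl

theorem JZ6_step {A : Finset (V × Fin 4)} {e : V × Fin 4 → V × Fin 4} (h : Act A e) (u : V)
    (hu : ∀ i, (u, i) ∈ A) (P : (V × Fin 4 → Bool) → Prop) [DecidablePred P]
    (hP : ∀ o o' : V × Fin 4 → Bool, (∀ d, d.1 ≠ u → o d = o' d) → (P o ↔ P o')) :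
    2 * ((JZ6_F A e).filter fun o => JZ6_Bal u o ∧ P o).card =
      ∑ t : Fin 3, 2 ^ ls e u t * ((JZ6_F (A.filter fun d => d.1 ≠ u) (sm e u t)).filter P).card := by
  rw [Finset.sum_congr rfl fun t _ => (JZ6_sm h u hu P hP t).2.symm]
  simp only [card_filter]
  rw [Finset.mul_sum, Finset.sum_comm]
  refine Finset.sum_congr rfl fun o _ => ?_
  have hf := JZ6_fin fun i => o (u, i)
  by_cases hp : P o
  · simp only [hp, and_true]
    exact hf
  · simp only [hp, and_false, if_false, mul_zero, Finset.sum_const_zero]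

/-- the number of Eulerian orientations (free at `v`) -/
def JZ6_O (v : V) (L : List V) (e : V × Fin 4 → V × Fin 4) : ℕ :=
  ((JZ6_F (dts (insert v L.toFinset)) e).filter fun o => ∀ w ∈ L, JZ6_Bal w o).card

theorem JZ6_dts (v u : V) (L : List V) (hu : u ∉ L) (hvu : v ≠ u) :
    ((dts (insert v (u :: L).toFinset)).filter fun d => d.1 ≠ u) = dts (insert v L.toFinset) := by
  ext d
  simp only [dts, mem_filter, mem_product, mem_univ, and_true, mem_insert, List.mem_toFinset, List.mem_cons]
  constructor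
  · rintro ⟨k, hc⟩
    tauto
  · intro k
    refine ⟨by tauto, ?_⟩
    rintro hc
    rcases k with k | k
    · exact hvu (k ▸ hc)
    · exact hu (hc ▸ k)

theorem JZ6_main (v : V) (L : List V) : ∀ e : V × Fin 4 → V × Fin 4, L.Nodup → v ∉ L →
    Act (dts (insert v L.toFinset)) e → 4 * Z 2 L e = 2 ^ L.length * (JZ6_O v L e : ℤ) := by
  induction L with
  | nil =>
    intro e _ _ h
    have h1 : (JZ6_O v [] e) = 4 := by
      unfold JZ6_O
      rw [filter_true_of_mem (fun o _ w hw => absurd hw List.not_mem_nil)]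
      have hc : (dts (insert v ([] : List V).toFinset)).card = 2 * 2 := by
        simp [dts]
      rw [JZ6_total 2 _ e h hc]
      norm_num
    rw [h1]
    simp [Z]
  | cons u L ih =>
    intro e hL hv h
    have huL : u ∉ L := (List.nodup_cons.mp hL).1
    have hvu : v ≠ u := fun hc => hv (hc ▸ List.mem_cons_self)
    have hvL : v ∉ L := fun hc => hv (List.mem_cons_of_mem _ hc)
    have hu : ∀ i : Fin 4, (u, i) ∈ dts (insert v (u :: L).toFinset) := by
      intro i
      simp [dts]
    have hP : ∀ o o' : V × Fin 4 → Bool, (∀ d, d.1 ≠ u → o d = o' d) →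
        ((∀ w ∈ L, JZ6_Bal w o) ↔ ∀ w ∈ L, JZ6_Bal w o') := by
      intro o o' hoo
      refine forall₂_congr fun w hw => ?_
      have hwu : w ≠ u := fun hc => huL (hc ▸ hw)
      unfold JZ6_Bal
      have : ∀ i : Fin 4, o (w, i) = o' (w, i) := fun i => hoo _ hwu
      simp only [this]
    have h2 := JZ6_step h u hu (fun o => ∀ w ∈ L, JZ6_Bal w o) hP
    have h3 : ((JZ6_F (dts (insert v (u :: L).toFinset)) e).filter fun o => JZ6_Bal u o ∧ ∀ w ∈ L, JZ6_Bal w o).card =
        JZ6_O v (u :: L) e := by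
      unfold JZ6_O
      congr 1
      apply filter_congr
      intro o _
      rw [List.forall_mem_cons]
    rw [h3, JZ6_dts v u L huL hvu] at h2
    have h4 : ∀ t : Fin 3, 4 * Z 2 L (sm e u t) = 2 ^ L.length * (JZ6_O v L (sm e u t) : ℤ) := by
      intro t
      have ha := (JZ6_sm h u hu (fun o => ∀ w ∈ L, JZ6_Bal w o) hP t).1
      rw [JZ6_dts v u L huL hvu] at ha
      exact ih _ (List.nodup_cons.mp hL).2 hvL ha
    have h5 : (2 : ℤ) * (JZ6_O v (u :: L) e : ℤ) = ∑ t : Fin 3, 2 ^ ls e u t * (JZ6_O v L (sm e u t) : ℤ) := by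
      exact_mod_cast h2
    show 4 * ∑ t : Fin 3, (2 : ℤ) ^ ls e u t * Z 2 L (sm e u t) = 2 ^ (L.length + 1) * (JZ6_O v (u :: L) e : ℤ)
    rw [pow_succ, mul_assoc, h5, Finset.mul_sum, Finset.mul_sum]
    refine Finset.sum_congr rfl fun t _ => ?_
    linear_combination (2 : ℤ) ^ ls e u t * h4 t

theorem JZ6_even (v : V) (L : List V) (e : V × Fin 4 → V × Fin 4) (h : Act (dts (insert v L.toFinset)) e) :
    2 ∣ JZ6_O v L e := by
  set A := dts (insert v L.toFinset) with hA
  have hv0 : ((v, 0) : V × Fin 4) ∈ A := by simp [hA, dts]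
  have heA : ∀ d ∈ A, e d ∈ A := by
    intro d hd
    have h1 := (h.2 d).2 hd
    exact (h.2 _).1 (by rw [h.1]; exact h1.symm)
  let neg : (V × Fin 4 → Bool) → (V × Fin 4 → Bool) := fun o d => if d ∈ A then !o d else false
  have hS : ((JZ6_O v L e : ℕ) : ZMod 2) = 0 := by
    have h1 : ((JZ6_O v L e : ℕ) : ZMod 2) = ∑ _o ∈ (JZ6_F A e).filter fun o => ∀ w ∈ L, JZ6_Bal w o, (1 : ZMod 2) := by
      rw [Finset.sum_const, nsmul_eq_mul, mul_one]
      rfl
    rw [h1]
    refine Finset.sum_involution (fun o _ => neg o) ?_ ?_ ?_ ?_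
    · intro o _
      decide
    · intro o _ _ hc
      have := congrFun hc (v, 0)
      simp only [neg, if_pos hv0] at this
      cases h2 : o (v, 0) <;> simp [h2] at this
    · intro o ho
      rw [mem_filter, JZ6_mem] at ho ⊢
      obtain ⟨⟨k1, k2⟩, k3⟩ := ho
      refine ⟨⟨?_, ?_⟩, ?_⟩
      · intro d hd
        simp only [neg, if_pos hd, if_pos (heA d hd), k1 d hd]
      · intro d hd
        simp only [neg, if_neg hd]
      · intro w hw
        have hb := k3 w hw
        have hwA : ∀ i : Fin 4, ((w, i) : V × Fin 4) ∈ A := by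
          intro i
          simp [hA, dts, hw]
        unfold JZ6_Bal at hb ⊢
        simp only [neg, hwA, if_true]
        have hfin : ∀ f : Fin 4 → Bool, (univ.filter fun i : Fin 4 => f i = true).card = 2 →
            (univ.filter fun i : Fin 4 => (!f i) = true).card = 2 := by decide
        exact hfin (fun i => o (w, i)) hb
    · intro o ho
      rw [mem_filter, JZ6_mem] at ho
      funext d
      simp only [neg]
      by_cases hd : d ∈ A
      · simp only [if_pos hd, Bool.not_not]
      · rw [if_neg hd, ho.1.2 d hd]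
  exact (ZMod.natCast_eq_zero_iff _ 2).mp hS

end

theorem JZ6 : JZ6_stmt := by
  intro V _ _ v L e hL hv hne h
  obtain ⟨m, hm⟩ := JZ6_even v L e h
  have h1 := JZ6_main v L e hL hv h
  rw [hm] at h1
  obtain ⟨k, hk⟩ : ∃ k, L.length = k + 1 := ⟨L.length - 1, by
    have := List.length_pos_of_ne_nil hne
    omega⟩
  rw [hk, Nat.add_sub_cancel]
  rw [hk, pow_succ] at h1
  push_cast at h1
  refine ⟨m, ?_⟩
  linarith

end CT
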